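import Pool.Agent.NTW.StmtsB

/-!
# Row HCA of the squad NTW: conclusion in the case `τ k = k`
-/

set_option autoImplicit false

open Matrix Filter Topology

namespace Pool.Agent.NTW.H8

open Pool.Agent.PFS Pool.Agent.PFJ Pool.Agent.NTS Pool.Agent.NTW

theorem fs_comm {n : ℕ} (C : Set (V n)) (x y : V n) : Fs C x y = Fs C y x := by
  unfold Fs
  rw [add_comm]

theorem hca (fcs : FcsStmt) (pbf : PbfStmt) (exr : ExrStmt) (mvg : MvgStmt) (tbx : TbxStmt)
    (_dcp : DcpStmt) (eiw : EiwStmt) (lm1 : Lm1Stmt) (swu : SwuStmt) (bla : BlaStmt) :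
    HcaStmt := by
  classical
  intro n C Γ K c τ hD hNIT v v' ν M k hK hk
  have h : CC C Γ := hD.toCC
  have hC : PCone C := h.toPCone
  have hul := h.hul
  have tv := hK.tv
  have tv' := hK.tv'
  have hvc : ∀ i, v i ∈ closure C := fun i => tv.pes.1.cl i
  have hvc' : ∀ i, v' i ∈ closure C := fun i => tv'.pes.1.cl i
  have htau : Tau c τ := hD.toTau
  have hLW : ∀ i, Lf C τ v' i ≤ Ws C τ v' := fun i => le_iSup (Lf C τ v') i
  have hyLam : v' k ∈ LamC C Γ := tv'.pes.2 k
  have hy0 : v' k ≠ 0 := hul.lamNe _ hyLam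
  have hvk0 : v k ≠ 0 := hul.lamNe _ (tv.pes.2 k)
  have hLk : Lf C τ v' k = Submodule.span ℝ {v' k} := by
    unfold Lf
    rw [if_pos hk]
  have hyL : v' k ∈ Lf C τ v' k := by
    rw [hLk]
    exact Submodule.mem_span_singleton_self _
  -- `y` is not a multiple of `v k`
  have hnm : ¬ ∃ r : ℝ, v' k = r • v k := by
    rintro ⟨r, hr⟩
    have hr0 : r ≠ 0 := by
      rintro rfl
      rw [zero_smul] at hr
      exact hy0 hr
    apply hK.out
    have h1 : v k = r⁻¹ • v' k := by rw [hr, smul_smul, inv_mul_cancel₀ hr0, one_smul]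
    rw [h1]
    exact Submodule.smul_mem _ _ (hLW k hyL)
  have hbel : BelowH C v (v' k) k ν := bla n C Γ K c τ hD v v' ν M k hK hk
  obtain ⟨j, hjk, hνj, hνk, hz, M', -, hle⟩ := lm1 n C Γ h K hD.three hD.maxc v (v' k) k ν tv.pes
    hyLam hnm hbel hK.pos hK.nz hK.sum
  have hyF : v' k ∈ Fs C (v j) (v k) :=
    (fcs n C hC (v j + v k) (hC.cl_add (hvc _) (hvc _))).2.1 (v' k) (hvc' k) M' hle
  -- `v j` is in a factor of `v'`
  have hvj : ∃ j1, v j ∈ Lf C τ v' j1 ∧ j1 ≠ k := by
    by_cases htj : τ j = j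
    · obtain ⟨r, hr, hvr⟩ := hK.lab j hjk htj
      refine ⟨j, ?_, hjk⟩
      have h1 : v j = r⁻¹ • v' j := by rw [hvr, smul_smul, inv_mul_cancel₀ hr.ne', one_smul]
      have h2 : Lf C τ v' j = Submodule.span ℝ {v' j} := by
        unfold Lf
        rw [if_pos htj]
      rw [h1, h2]
      exact Submodule.smul_mem _ _ (Submodule.mem_span_singleton_self _)
    · obtain ⟨j1, hj1, hj1'⟩ := hK.cls j hjk htj
      refine ⟨j1, hj1', ?_⟩
      rintro rfl
      exact hj1 hk
  -- (a)
  have hbig : 3 ≤ c j k := by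
    by_contra hlt
    have hc2 : c j k = 2 := by
      have := hD.two j k hjk
      omega
    have hdim := hD.dim v tv j k hjk
    rw [hc2] at hdim
    obtain ⟨p1, p2, p3⟩ := pbf n C hC K v tv.pes.1 j k hjk
    have hFs : Submodule.span ℝ ({v j, v k} : Set (V n)) = Fs C (v j) (v k) :=
      Submodule.eq_of_le_of_finrank_eq (p1 _ p2).2.1 (by rw [p3, hdim])
    have hyF' := hyF
    rw [← hFs, Submodule.mem_span_pair] at hyF'
    obtain ⟨α, β, hαβ⟩ := hyF'
    obtain ⟨j1, hvj1, hj1k⟩ := hvj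
    have hβ : β = 0 := by
      by_contra hβ
      apply hK.out
      have h1 : v k = β⁻¹ • (v' k - α • v j) := by
        rw [← hαβ, add_sub_cancel_left, smul_smul, inv_mul_cancel₀ hβ, one_smul]
      rw [h1]
      exact Submodule.smul_mem _ _ (Submodule.sub_mem _ (hLW k hyL)
        (Submodule.smul_mem _ _ (hLW j1 hvj1)))
    rw [hβ, zero_smul, add_zero] at hαβ
    have he1 : v' k ∈ Lf C τ v' j1 := by
      rw [← hαβ]
      exact Submodule.smul_mem _ _ hvj1
    rcases (eiw n C Γ K c τ hD v' tv').2.1 k j1 (v' k) hyL he1 hy0 with h1 | h1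
    · exact hj1k h1
    · exact hj1k (h1.trans hk)
  -- (b)
  have hkj : k ≠ τ j := by
    intro h1
    have h2 := htau.inv j
    rw [← h1, hk] at h2
    exact hjk h2.symm
  have htj : τ j = j := by
    by_contra hne
    have := htau.leaf j hne k (Ne.symm hjk) hkj
    omega
  -- (c)
  have hInd : Ind2 (v' k) (v k) := by
    intro a b hab
    have ha : a = 0 := by
      by_contra ha
      apply hnm
      refine ⟨-(a⁻¹ * b), ?_⟩
      have h1 : a • v' k = -(b • v k) := eq_neg_of_add_eq_zero_left hab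
      have h2 : v' k = a⁻¹ • (a • v' k) := by rw [smul_smul, inv_mul_cancel₀ ha, one_smul]
      rw [h2, h1]
      module
    rw [ha, zero_smul, zero_add] at hab
    exact ⟨ha, (smul_eq_zero.1 hab).resolve_right hvk0⟩
  have hsmall : ∀ l, l ≠ j → l ≠ k → c k l ≤ 2 := by
    intro l hlj hlk
    by_contra hlt
    have hl3 : 3 ≤ c k l := by omega
    have hT : TT C Γ c (fun i => if i = k then v' k else v i) :=
      swu n C Γ K c τ hD v v' k tv tv' hk hK.lab hK.cls
    have hd1 : Module.finrank ℝ (Fs C (v' k) (v l)) = c k l := by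
      have h1 := hD.dim _ hT k l (Ne.symm hlk)
      rw [if_pos rfl, if_neg hlk] at h1
      exact h1
    have hFdim : 3 ≤ Module.finrank ℝ (Fs C (v j) (v k)) := by
      rw [hD.dim v tv j k hjk]
      exact hbig
    have hPB : PB C v j k (Fs C (v j) (v k)) := (tbx n C Γ K c τ hD v tv).1 j k hjk
    obtain ⟨-, -, -, e4⟩ := exr n C Γ h K hD.three hD.maxc v tv.pes j k hjk hPB hFdim
    have hvkF : v k ∈ Fs C (v j) (v k) := hPB.right
    have hExty : Ext C (v' k) := ((eiw n C Γ K c τ hD v' tv').2.2.1 k).1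
    have hExtv : Ext C (v k) := ((eiw n C Γ K c τ hD v tv).2.2.1 k).1
    obtain ⟨hP, hFeq⟩ := mvg n C Γ h K hD.three hD.maxc v tv.pes j k hjk hPB hFdim (v' k) hyF
      (v k) hvkF (hvc' k) (hvc k) hInd (e4 _ hyF hExty) (e4 _ hvkF hExtv)
    have hkjne : k ≠ j := Ne.symm hjk
    have g1 : Module.finrank ℝ (Fs C (v k) (v' k)) = c j k := by
      rw [fs_comm C (v k) (v' k), hFeq, hD.dim v tv j k hjk]
    have g2 : Module.finrank ℝ (Fs C (v k) (v l)) = c k l := hD.dim v tv k l (Ne.symm hlk)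
    have key : ∀ w : Fin K → V n, IsPES C Γ w → w k = v k → w j = v' k → w l = v l → False := by
      intro w hw e1 e2 e3
      have hN := hNIT w hw k j l hkjne (Ne.symm hlk) (Ne.symm hlj)
      rw [e1, e2, e3] at hN
      exact hN (by rw [g1]; exact hbig) (by rw [g2]; exact hl3) (by rw [g2, hd1])
    refine key _ hP ?_ ?_ ?_
    · show (if k = j then v' k else if k = k then v k else v k) = v k
      rw [if_neg hkjne, if_pos rfl]
    · show (if j = j then v' k else if j = k then v k else v j) = v' k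
      rw [if_pos rfl]
    · show (if l = j then v' k else if l = k then v k else v l) = v l
      rw [if_neg hlj, if_neg hlk]
  exact ⟨j, ⟨hjk, hk, htj, hbig, hsmall⟩, hνj, hνk, hz⟩

end Pool.Agent.NTW.H8
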